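import Pool.Agent.X83.NH.Dense

/-! There is a homogeneous non-Hausdorff 3-manifold in which the points not separated from any given
point form a single torus. -/

open Pool.Agent.X83.NH

namespace Pool.Agent.Results.MP_861644_gt.SingleTorus

/-- A positive answer to Q1 (a). -/
theorem result :
    ∃ (X : Type) (_ : TopologicalSpace X), IsHNHManifold 3 X ∧
      ∀ z : X, Nonempty (NH z ≃ₜ Circle × Circle) :=
  torus_case

end Pool.Agent.Results.MP_861644_gt.SingleTorus
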